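import Pool.Agent.J6H55.MA.Stm

set_option autoImplicit false

/-!
# Project MA, module MA-FRO (helper22): lengths of concatenations; a word containing all pairs
-/

namespace Pool.Agent.J6H55.MA

theorem fro : S_fro := by
  intro W K M hL
  obtain ⟨v, hv, v', hv', hlen⟩ := hL.two
  have hA : 1 ≤ v.length := le_trans hL.pos (hL.lo v hv)
  refine ⟨v.length * v.length, fun n hn => ?_⟩
  have hq : v.length ≤ n / v.length := by
    rw [Nat.le_div_iff_mul_le (by omega)]
    exact hn
  have hr : n % v.length < v.length := Nat.mod_lt _ (by omega)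
  refine ⟨(List.replicate (n / v.length - n % v.length) v ++
    List.replicate (n % v.length) v').flatten, ⟨_, ?_, rfl⟩, ?_⟩
  · intro w hw
    rcases List.mem_append.mp hw with h | h
    · rw [List.eq_of_mem_replicate h]
      exact hv
    · rw [List.eq_of_mem_replicate h]
      exact hv'
  · rw [List.length_flatten, List.map_append, List.map_replicate, List.map_replicate,
      List.sum_append, List.sum_replicate, List.sum_replicate, hlen, smul_eq_mul, smul_eq_mul]
    obtain ⟨d, hd⟩ := Nat.exists_eq_add_of_le (le_trans hr.le hq)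
    have h1 := Nat.div_add_mod n v.length
    rw [hd, Nat.add_sub_cancel_left]
    rw [hd] at h1
    nlinarith [h1]

theorem uu : S_uu := by
  intro W K M hL
  have hfin : W.Finite := (List.finite_length_le Bool M).subset fun v hv => hL.hi v hv
  obtain ⟨ws, hws⟩ : ∃ ws : List (List Bool), ∀ v, v ∈ ws ↔ v ∈ W :=
    ⟨hfin.toFinset.toList, fun v => by simp⟩
  let ll : List (List (List Bool)) := ws.flatMap fun v => ws.map fun v' => [v, v']
  refine ⟨ll.flatten.flatten, ⟨ll.flatten, ?_, rfl⟩, ?_⟩
  · intro v hv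
    obtain ⟨p, hp, hvp⟩ := List.mem_flatten.1 hv
    obtain ⟨a, ha, hp⟩ := List.mem_flatMap.1 hp
    obtain ⟨b, hb, rfl⟩ := List.mem_map.1 hp
    rcases List.mem_cons.1 hvp with rfl | h
    · exact (hws _).1 ha
    · rw [List.mem_singleton.1 h]
      exact (hws _).1 hb
  · intro v hv v' hv'
    have hm : [v, v'] ∈ ll := List.mem_flatMap.2 ⟨v, (hws v).2 hv,
      List.mem_map.2 ⟨v', (hws v').2 hv', rfl⟩⟩
    obtain ⟨s, t, h⟩ := List.infix_of_mem_flatten hm
    refine ⟨s.flatten, t.flatten, ?_⟩
    rw [← h]
    simp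

end Pool.Agent.J6H55.MA
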